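import Pool.Agent.W810.SYN.Stm

set_option autoImplicit false

namespace Pool.Agent.W229.SYN.FIN

open MeasureTheory AddCircle Filter Topology Pool.Agent.Results.MP_535799_an.NonSidon
  Pool.Agent.W810.SYN

lemma norm_coeff_le (f : L1) (n : ℤ) : ‖coeff f n‖ ≤ ‖f‖ := by
  unfold coeff fourierCoeff
  rw [L1.norm_eq_integral_norm]
  refine (norm_integral_le_integral_norm _).trans (le_of_eq ?_)
  refine integral_congr_ae (Filter.Eventually.of_forall fun x => ?_)
  have h1 : ‖(fourier (-n) x : ℂ)‖ = 1 := by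
    rw [fourier_apply]
    exact Circle.norm_coe _
  show ‖(fourier (-n) x : ℂ) • f x‖ = ‖f x‖
  rw [norm_smul, h1, one_mul]

lemma key (a η G : ℤ → ℂ) (g s L : ℝ)
    (h : ∀ n n' : ℤ, n ≤ n' → a n = a n' → η n' - η n = ∑ m ∈ Finset.Ico n n', G m * (a m - a n))
    (n n' : ℤ) (han : a n = a n') (hg0 : 0 ≤ g) (hs0 : 0 ≤ s)
    (hG : ∀ m ∈ Set.uIcc n n', ‖G m‖ ≤ g)
    (hs : ∀ m ∈ Set.uIcc n n', ‖a m - a n‖ ≤ s)
    (hL : |(n' : ℝ) - n| ≤ L) : ‖η n - η n'‖ ≤ L * (g * s) := by
  have hgs : 0 ≤ g * s := mul_nonneg hg0 hs0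
  have gen : ∀ x y : ℤ, x ≤ y → (∀ m ∈ Set.Icc x y, m ∈ Set.uIcc n n') → a x = a n → a x = a y →
      |(y : ℝ) - x| ≤ L → ‖η y - η x‖ ≤ L * (g * s) := by
    intro x y hxy hsub hax haxy hL'
    rw [h x y hxy haxy]
    refine (norm_sum_le_of_le (Finset.Ico x y) (f := fun m => G m * (a m - a x))
      (n := fun _ => g * s) ?_).trans ?_
    · intro m hm
      rw [Finset.mem_Ico] at hm
      have hm' := hsub m ⟨hm.1, hm.2.le⟩
      rw [norm_mul, hax]
      exact mul_le_mul (hG m hm') (hs m hm') (norm_nonneg _) hg0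
    · rw [Finset.sum_const, Int.card_Ico, nsmul_eq_mul]
      refine mul_le_mul_of_nonneg_right ?_ hgs
      have h1 : (((y - x).toNat : ℕ) : ℝ) = (y : ℝ) - x := by
        have : (((y - x).toNat : ℕ) : ℤ) = y - x := Int.toNat_of_nonneg (by omega)
        exact_mod_cast this
      rw [h1]; exact (le_abs_self _).trans hL'
  rcases le_total n n' with hle | hle
  · rw [norm_sub_rev]
    exact gen n n' hle (fun m hm => by rwa [Set.uIcc_of_le hle]) rfl han hL
  · exact gen n' n hle (fun m hm => by rwa [Set.uIcc_of_ge hle]) han.symm han.symm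
      (by rwa [abs_sub_comm])

lemma far (c : ℕ) (n m : ℤ) (h : |(m : ℝ) - n| ≤ c * Real.sqrt (1 + |(n : ℝ)|)) :
    |n| ≤ 2 * |m| + 1 + (c : ℤ) ^ 2 := by
  have h1 : (c : ℝ) * Real.sqrt (1 + |(n : ℝ)|) ≤ (1 + |(n : ℝ)|) / 2 + (c : ℝ) ^ 2 / 2 := by
    nlinarith [sq_nonneg (Real.sqrt (1 + |(n : ℝ)|) - c),
      Real.sq_sqrt (show (0 : ℝ) ≤ 1 + |(n : ℝ)| by positivity)]
  have h2 : |(n : ℝ)| ≤ |(m : ℝ)| + |(m : ℝ) - n| := by
    have := abs_sub_abs_le_abs_sub (n : ℝ) m
    rw [abs_sub_comm (n : ℝ) m] at this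
    linarith
  have h3 : |(n : ℝ)| ≤ 2 * |(m : ℝ)| + 1 + (c : ℝ) ^ 2 := by linarith
  exact_mod_cast h3

lemma exists_far (s : Set ℤ) (hs : ¬ s.Finite) (K : ℤ) : ∃ m ∈ s, K < |m| := by
  by_contra hcon
  push Not at hcon
  exact hs ((Set.finite_Icc (-K) K).subset fun m hm => abs_le.mp (hcon m hm))

lemma ind_sum (u : Finset ℤ) (k : ℕ) (X : ℝ) (hX : 0 ≤ X) :
    ∑ m ∈ u, (if |m| ≤ (k : ℤ) then X else 0) ≤ X * (2 * k + 1) := by
  rw [← Finset.sum_filter, Finset.sum_const, nsmul_eq_mul, mul_comm]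
  refine mul_le_mul_of_nonneg_left ?_ hX
  have h1 : (u.filter (fun m => |m| ≤ (k : ℤ))).card ≤ (Finset.Icc (-(k : ℤ)) k).card := by
    refine Finset.card_le_card fun m hm => ?_
    rw [Finset.mem_filter] at hm
    rw [Finset.mem_Icc]
    exact abs_le.mp hm.2
  rw [Int.card_Icc] at h1
  have h2 : ((k : ℤ) + 1 - -(k : ℤ)).toNat = 2 * k + 1 := by omega
  rw [h2] at h1
  exact_mod_cast h1

lemma sum_bd (u : Finset ℤ) (D M N N0 : ℕ) (hN : N0 ≤ N) (X Y : ℝ) (hX : 0 ≤ X) (hY : 0 ≤ Y) :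
    ∑ m ∈ u, (if 1 + |m| ≤ (D : ℤ) * (N + 1) then
      1 / ((N : ℝ) + 1) * (X + if |m| < (M : ℤ) then Y else 0) else 0) ≤
      X * (2 * D + 1) + Y * (2 * M + 1) / (N0 + 1) := by
  have hN1 : (0 : ℝ) < (N : ℝ) + 1 := by positivity
  have hN01 : (0 : ℝ) < (N0 : ℝ) + 1 := by positivity
  have hNN : (N0 : ℝ) + 1 ≤ (N : ℝ) + 1 := by
    have : (N0 : ℝ) ≤ N := by exact_mod_cast hN
    linarith
  have hpt : ∀ m ∈ u, (if 1 + |m| ≤ (D : ℤ) * (N + 1) then
      1 / ((N : ℝ) + 1) * (X + if |m| < (M : ℤ) then Y else 0) else 0) ≤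
      (if |m| ≤ ((D * (N + 1) : ℕ) : ℤ) then X / ((N : ℝ) + 1) else 0) +
      (if |m| ≤ (M : ℤ) then Y / ((N0 : ℝ) + 1) else 0) := by
    intro m _
    have hA : 0 ≤ X / ((N : ℝ) + 1) := by positivity
    have hBB : 0 ≤ Y / ((N0 : ℝ) + 1) := by positivity
    have hYY : Y / ((N : ℝ) + 1) ≤ Y / ((N0 : ℝ) + 1) := div_le_div_of_nonneg_left hY hN01 hNN
    by_cases h1 : 1 + |m| ≤ (D : ℤ) * (N + 1)
    · have h1' : |m| ≤ ((D * (N + 1) : ℕ) : ℤ) := by push_cast; linarith
      rw [if_pos h1, if_pos h1']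
      by_cases h2 : |m| < (M : ℤ)
      · rw [if_pos h2, if_pos h2.le]
        have : 1 / ((N : ℝ) + 1) * (X + Y) = X / ((N : ℝ) + 1) + Y / ((N : ℝ) + 1) := by ring
        rw [this]; linarith
      · rw [if_neg h2]
        have : 1 / ((N : ℝ) + 1) * (X + 0) = X / ((N : ℝ) + 1) := by ring
        rw [this]
        split_ifs <;> linarith
    · rw [if_neg h1]
      split_ifs <;> linarith
  refine (Finset.sum_le_sum hpt).trans ?_
  rw [Finset.sum_add_distrib]
  have e1 := ind_sum u (D * (N + 1)) (X / ((N : ℝ) + 1)) (by positivity)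
  have e2 := ind_sum u M (Y / ((N0 : ℝ) + 1)) (by positivity)
  have e3 : X / ((N : ℝ) + 1) * (2 * ((D * (N + 1) : ℕ) : ℝ) + 1) ≤ X * (2 * D + 1) := by
    rw [div_mul_eq_mul_div, div_le_iff₀ hN1]
    push_cast
    have : 0 ≤ X * N := by positivity
    nlinarith
  have e4 : Y / ((N0 : ℝ) + 1) * (2 * (M : ℝ) + 1) = Y * (2 * M + 1) / (N0 + 1) := by ring
  linarith

lemma est (L c1 c2 s c D t S : ℝ) (hL : L ^ 2 = c ^ 2 * t) (h1 : t * c1 ^ 2 ≤ D * c1)
    (h2 : t * c2 ^ 2 ≤ D * c2) (ht : 0 ≤ t) (hS : s ^ 2 ≤ 4 * S) :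
    (L * (3 * (c1 + c2) * s)) ^ 2 ≤ 72 * c ^ 2 * D * (c1 * S + c2 * S) := by
  have e1 : (L * (3 * (c1 + c2) * s)) ^ 2 = 9 * c ^ 2 * (t * (c1 + c2) ^ 2) * s ^ 2 := by
    rw [mul_pow, hL]; ring
  rw [e1]
  have e2 : t * (c1 + c2) ^ 2 ≤ 2 * (D * c1 + D * c2) := by
    have : t * (c1 + c2) ^ 2 ≤ t * (2 * c1 ^ 2 + 2 * c2 ^ 2) :=
      mul_le_mul_of_nonneg_left (by nlinarith [sq_nonneg (c1 - c2)]) ht
    nlinarith
  have e3 : 0 ≤ t * (c1 + c2) ^ 2 := by positivity
  have e4 : (t * (c1 + c2) ^ 2) * s ^ 2 ≤ (2 * (D * c1 + D * c2)) * (4 * S) :=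
    mul_le_mul e2 hS (sq_nonneg _) (e3.trans e2)
  have e5 : 9 * c ^ 2 * ((t * (c1 + c2) ^ 2) * s ^ 2) ≤
      9 * c ^ 2 * ((2 * (D * c1 + D * c2)) * (4 * S)) :=
    mul_le_mul_of_nonneg_left e4 (by positivity)
  nlinarith

theorem main : S_FIN := by
  classical
  intro hRL hCLS hAPX r hC A hAc hAm hr B hBc hBm hBid f hf
  obtain ⟨C0, hC0⟩ := hC
  obtain ⟨c, hc⟩ := exists_nat_ge C0
  have hcl : ∀ n : ℤ, Set.OrdConnected {m | r n m} ∨
      ∀ m, r n m → |(m : ℝ) - n| ≤ c * Real.sqrt (1 + |(n : ℝ)|) := by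
    intro n
    rcases hC0 n with h | h
    · exact Or.inl h
    · refine Or.inr fun m hm => (h m hm).trans ?_
      exact mul_le_mul_of_nonneg_right hc (Real.sqrt_nonneg _)
  -- representatives
  obtain ⟨ρ, hρ1, hρ2⟩ : ∃ ρ : ℤ → ℤ, (∀ n, r n (ρ n)) ∧ (∀ m n, r m n → ρ m = ρ n) := by
    refine ⟨fun n => (Quotient.mk r n).out, fun n => r.symm (Quotient.mk_out n), ?_⟩
    intro m n h
    have : Quotient.mk r m = Quotient.mk r n := Quotient.sound h
    simp only [this]
  -- classes of nonzero points are finite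
  have hfin : ∀ n, (∃ g ∈ A, coeff g n ≠ 0) → {m | r n m}.Finite := by
    intro n ⟨g, hg, hgn⟩
    by_contra h
    obtain ⟨M, hM⟩ := (hRL g).1 ‖coeff g n‖ (norm_pos_iff.2 hgn)
    obtain ⟨m, hm, hlt⟩ := exists_far _ h M
    have h1 := (hr n m).2 hm g hg
    have h2 := hM m hlt.le
    rw [← h1] at h2
    exact lt_irrefl _ h2
  have hNZr : ∀ m n, r m n → (∃ g ∈ A, coeff g m ≠ 0) → (∃ g ∈ A, coeff g n ≠ 0) := by
    intro m n h ⟨g, hg, hgm⟩
    exact ⟨g, hg, by rw [← (hr m n).2 h g hg]; exact hgm⟩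
  -- class finset
  obtain ⟨cls, hcls⟩ : ∃ cls : ℤ → Finset ℤ, ∀ n, (∃ g ∈ A, coeff g n ≠ 0) →
      ∀ m, m ∈ cls n ↔ r n m := by
    refine ⟨fun n => if h : {m | r n m}.Finite then h.toFinset else ∅, ?_⟩
    intro n hn m
    simp only [dif_pos (hfin n hn), Set.Finite.mem_toFinset, Set.mem_ofPred_eq]
  obtain ⟨Zf, hZf⟩ : ∃ Zf : Finset ℤ, {m : ℤ | ¬ ∃ g ∈ A, coeff g m ≠ 0}.Finite →
      ∀ m, (¬ ∃ g ∈ A, coeff g m ≠ 0) → m ∈ Zf := by
    by_cases h : {m : ℤ | ¬ ∃ g ∈ A, coeff g m ≠ 0}.Finite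
    · exact ⟨h.toFinset, fun _ m hm => by rw [Set.Finite.mem_toFinset]; exact hm⟩
    · exact ⟨∅, fun h' => absurd h' h⟩
  -- closedness
  have hclo : f ∈ closure (B : Set L1) := by
    rw [Metric.mem_closure_iff]
    intro ε hε
    set D : ℕ := 4 + c ^ 2 with hD
    set E1 : ℝ := 144 * (c : ℝ) ^ 2 * D * (2 * D + 1) with hE1
    have hE1n : 0 ≤ E1 := by positivity
    set δ : ℝ := ε / (4 * (E1 + 1)) with hδ
    have hδ0 : 0 < δ := by positivity
    obtain ⟨M, hM⟩ := (hRL f).1 δ hδ0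
    set M' : ℕ := 2 * M + 1 + c ^ 2 with hM'
    set E2 : ℝ := 144 * (c : ℝ) ^ 2 * D * (‖f‖ ^ 2 * (2 * M' + 1)) with hE2
    have hE2n : 0 ≤ E2 := by positivity
    obtain ⟨N0, hN0⟩ := exists_nat_ge (16 * E2 / ε ^ 2)
    set ε1 : ℝ := ε / (4 * ((Zf.card : ℝ) + 1)) with hε1
    have hε10 : 0 < ε1 := by positivity
    obtain ⟨N₁, N₂, η, G, hN01, hN12, hη0, hG, hform, happ⟩ := hAPX f ε1 N0 hε10
    have hG6 : ∀ m, ‖G m‖ ≤ 6 := by
      intro m
      refine (hG m).trans ?_
      have a1 : (1 : ℝ) / ((N₁ : ℝ) + 1) ≤ 1 := by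
        rw [div_le_one (by positivity)]; linarith [Nat.cast_nonneg (α := ℝ) N₁]
      have a2 : (1 : ℝ) / ((N₂ : ℝ) + 1) ≤ 1 := by
        rw [div_le_one (by positivity)]; linarith [Nat.cast_nonneg (α := ℝ) N₂]
      split_ifs <;> linarith
    -- type I
    have hI : ∀ n n', Set.OrdConnected {m | r n m} → r n n' → η n = η n' := by
      intro n n' ho hnn
      have hsub : Set.uIcc n n' ⊆ {m | r n m} := ho.uIcc_subset (r.refl n) hnn
      have := key (coeff f) η G 6 0 (|(n' : ℝ) - n|) hform n n' ((hr n n').2 hnn f hf)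
        (by norm_num) le_rfl (fun m _ => hG6 m) (fun m hm => by
          rw [(hr n m).2 (hsub hm) f hf, sub_self, norm_zero]) le_rfl
      rw [mul_zero, mul_zero, norm_le_zero_iff, sub_eq_zero] at this
      exact this
    set p : L1 := toL (poly (Finset.Icc (-(N₂ : ℤ) - 1) (N₂ + 1)) η) with hp
    have hpc : ∀ m, coeff p m = η m := by
      intro m
      rw [hp, coeff_toL_poly]
      split_ifs with h
      · rfl
      · refine (hη0 m ?_).symm
        rw [Finset.mem_Icc] at h
        by_contra hcon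
        push Not at hcon
        have := abs_le.mp hcon
        exact h ⟨by linarith, by linarith⟩
    set T : Finset ℤ := (Finset.Icc (-(N₂ : ℤ) - 1) (N₂ + 1)).filter
      (fun q => ρ q = q ∧ ∃ g ∈ A, coeff g q ≠ 0) with hT
    set h0 : L1 := ∑ q ∈ T, η q • idem (cls q) with hh0
    have hh0c : ∀ m, coeff h0 m = ∑ q ∈ T, η q * (if m ∈ cls q then 1 else 0) := by
      intro m
      rw [hh0, coeff_sum]
      exact Finset.sum_congr rfl fun q _ => by rw [coeff_smul, coeff_idem]
    have hh0B : h0 ∈ B := by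
      refine B.sum_mem fun q hq => B.smul_mem _ (hBid _ ?_ (conv_idem _))
      rw [hT, Finset.mem_filter] at hq
      refine hCLS A hAc hAm q (cls q) hq.2.2 fun n => ?_
      rw [hcls q hq.2.2 n]
      constructor
      · intro h
        exact (hr n q).2 (r.symm h)
      · intro h
        exact r.symm ((hr n q).1 h)
    have hc0 : ∀ m, (¬ ∃ g ∈ A, coeff g m ≠ 0) → coeff h0 m = 0 := by
      intro m hm
      rw [hh0c]
      refine Finset.sum_eq_zero fun q hq => ?_
      rw [hT, Finset.mem_filter] at hq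
      rw [if_neg, mul_zero]
      intro h
      exact hm (hNZr q m ((hcls q hq.2.2 m).1 h) hq.2.2)
    have hc1 : ∀ m, (∃ g ∈ A, coeff g m ≠ 0) → coeff h0 m = η (ρ m) := by
      intro m hm
      have hρm : ∃ g ∈ A, coeff g (ρ m) ≠ 0 := hNZr m (ρ m) (hρ1 m) hm
      rw [hh0c]
      rw [Finset.sum_eq_single (ρ m)]
      · rw [if_pos ((hcls _ hρm m).2 (r.symm (hρ1 m))), mul_one]
      · intro q hq hne
        rw [hT, Finset.mem_filter] at hq
        rw [if_neg, mul_zero]
        intro h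
        apply hne
        have := hρ2 q m ((hcls q hq.2.2 m).1 h)
        rw [← this, hq.2.1]
      · intro hnot
        have : η (ρ m) = 0 := by
          refine hη0 _ ?_
          by_contra hcon
          push Not at hcon
          have h1 := abs_le.mp hcon
          apply hnot
          rw [hT, Finset.mem_filter, Finset.mem_Icc]
          exact ⟨⟨by linarith, by linarith⟩, (hρ2 m (ρ m) (hρ1 m)).symm, hρm⟩
        rw [this, zero_mul]
    -- pointwise bound
    have hpt : ∀ m, ‖coeff (p - h0) m‖ ^ 2 ≤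
        72 * (c : ℝ) ^ 2 * D * ((if 1 + |m| ≤ (D : ℤ) * (N₁ + 1) then
          1 / ((N₁ : ℝ) + 1) * (δ ^ 2 + if |m| < (M' : ℤ) then ‖f‖ ^ 2 else 0) else 0) +
          (if 1 + |m| ≤ (D : ℤ) * (N₂ + 1) then
          1 / ((N₂ : ℝ) + 1) * (δ ^ 2 + if |m| < (M' : ℤ) then ‖f‖ ^ 2 else 0) else 0)) +
          (if m ∈ Zf then ε1 ^ 2 else 0) := by
      intro m
      have hF0 : 0 ≤ 72 * (c : ℝ) ^ 2 * D * ((if 1 + |m| ≤ (D : ℤ) * (N₁ + 1) then
          1 / ((N₁ : ℝ) + 1) * (δ ^ 2 + if |m| < (M' : ℤ) then ‖f‖ ^ 2 else 0) else 0) +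
          (if 1 + |m| ≤ (D : ℤ) * (N₂ + 1) then
          1 / ((N₂ : ℝ) + 1) * (δ ^ 2 + if |m| < (M' : ℤ) then ‖f‖ ^ 2 else 0) else 0)) := by
        split_ifs <;> positivity
      have hZ0 : (0 : ℝ) ≤ (if m ∈ Zf then ε1 ^ 2 else 0) := by split_ifs <;> positivity
      by_cases hm : ∃ g ∈ A, coeff g m ≠ 0
      · have hw : coeff (p - h0) m = η m - η (ρ m) := by rw [coeff_sub, hpc, hc1 m hm]
        rw [hw]
        rcases hcl m with ho | h2
        · rw [hI m (ρ m) ho (hρ1 m), sub_self, norm_zero]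
          have : (0 : ℝ) ^ 2 = 0 := by norm_num
          rw [this]; linarith
        · have hLm := h2 (ρ m) (hρ1 m)
          have hmem : ∀ k ∈ Set.uIcc m (ρ m), |(k : ℝ) - m| ≤ c * Real.sqrt (1 + |(m : ℝ)|) := by
            intro k hk
            have : |k - m| ≤ |ρ m - m| := Set.abs_sub_left_of_mem_uIcc hk
            have h' : |(k : ℝ) - m| ≤ |(ρ m : ℝ) - m| := by exact_mod_cast this
            exact h'.trans hLm
          have hk := key (coeff f) η G
            (3 * ((if 1 + |m| ≤ (D : ℤ) * (N₁ + 1) then 1 / ((N₁ : ℝ) + 1) else 0) +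
              (if 1 + |m| ≤ (D : ℤ) * (N₂ + 1) then 1 / ((N₂ : ℝ) + 1) else 0)))
            (if |m| < (M' : ℤ) then 2 * ‖f‖ else 2 * δ) (c * Real.sqrt (1 + |(m : ℝ)|)) hform
            m (ρ m) ((hr m (ρ m)).2 (hρ1 m) f hf) (by split_ifs <;> positivity)
            (by split_ifs <;> positivity) ?_ ?_ hLm
          · refine (pow_le_pow_left₀ (norm_nonneg _) hk 2).trans ?_
            refine le_trans ?_ (le_add_of_nonneg_right hZ0)
            have hes := est (c * Real.sqrt (1 + |(m : ℝ)|))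
              (if 1 + |m| ≤ (D : ℤ) * (N₁ + 1) then 1 / ((N₁ : ℝ) + 1) else 0)
              (if 1 + |m| ≤ (D : ℤ) * (N₂ + 1) then 1 / ((N₂ : ℝ) + 1) else 0)
              (if |m| < (M' : ℤ) then 2 * ‖f‖ else 2 * δ) c D (1 + |(m : ℝ)|)
              (δ ^ 2 + if |m| < (M' : ℤ) then ‖f‖ ^ 2 else 0)
              (by rw [mul_pow, Real.sq_sqrt (by positivity)]) ?_ ?_ (by positivity) ?_
            · refine hes.trans (le_of_eq ?_)
              congr 1
              split_ifs <;> ring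
            · split_ifs with h
              · have h' : 1 + |(m : ℝ)| ≤ (D : ℝ) * ((N₁ : ℝ) + 1) := by exact_mod_cast h
                have hp0 : (0 : ℝ) < (N₁ : ℝ) + 1 := by positivity
                rw [div_pow, one_pow, mul_one_div, mul_one_div, div_le_div_iff₀ (by positivity) hp0]
                nlinarith
              · simp
            · split_ifs with h
              · have h' : 1 + |(m : ℝ)| ≤ (D : ℝ) * ((N₂ : ℝ) + 1) := by exact_mod_cast h
                have hp0 : (0 : ℝ) < (N₂ : ℝ) + 1 := by positivity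
                rw [div_pow, one_pow, mul_one_div, mul_one_div, div_le_div_iff₀ (by positivity) hp0]
                nlinarith
              · simp
            · split_ifs <;> nlinarith [sq_nonneg δ, sq_nonneg ‖f‖]
          · intro k hk
            refine (hG k).trans ?_
            have hfar := far c m k (hmem k hk)
            have hi : ∀ N : ℕ, |k| ≤ (N : ℤ) + 1 → 1 + |m| ≤ (D : ℤ) * (N + 1) := by
              intro N hN
              rw [hD]
              push_cast
              have : (0 : ℤ) ≤ (c : ℤ) ^ 2 * N := by positivity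
              have : (0 : ℤ) ≤ (N : ℤ) := by positivity
              nlinarith
            have hi1 := hi N₁
            have hi2 := hi N₂
            have q1 : (0 : ℝ) ≤ 1 / ((N₁ : ℝ) + 1) := by positivity
            have q2 : (0 : ℝ) ≤ 1 / ((N₂ : ℝ) + 1) := by positivity
            refine mul_le_mul_of_nonneg_left (add_le_add ?_ ?_) (by norm_num)
            · by_cases h : |k| ≤ (N₁ : ℤ) + 1
              · rw [if_pos h, if_pos (hi1 h)]
              · rw [if_neg h]; split_ifs <;> linarith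
            · by_cases h : |k| ≤ (N₂ : ℤ) + 1
              · rw [if_pos h, if_pos (hi2 h)]
              · rw [if_neg h]; split_ifs <;> linarith
          · intro k hk
            have hfar := far c m k (hmem k hk)
            refine (norm_sub_le _ _).trans ?_
            split_ifs with h
            · linarith [norm_coeff_le f k, norm_coeff_le f m]
            · push Not at h
              have hk1 : (M : ℤ) ≤ |k| := by
                rw [hM'] at h
                push_cast at h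
                linarith
              have hm1 : (M : ℤ) ≤ |m| := by
                rw [hM'] at h
                push_cast at h
                have : (0 : ℤ) ≤ (c : ℤ) ^ 2 := by positivity
                have : (0 : ℤ) ≤ (M : ℤ) := by positivity
                linarith
              linarith [hM k hk1, hM m hm1]
      · have hw : coeff (p - h0) m = η m := by rw [coeff_sub, hpc, hc0 m hm, sub_zero]
        rw [hw]
        by_cases hZ : {m : ℤ | ¬ ∃ g ∈ A, coeff g m ≠ 0}.Finite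
        · rw [if_pos (hZf hZ m hm)]
          have h1 : ‖η m‖ ≤ ε1 := by
            have h2 : coeff (f - p) m = - η m := by
              have : coeff f m = 0 := by
                by_contra hne
                exact hm ⟨f, hf, hne⟩
              rw [coeff_sub, hpc, this, zero_sub]
            have h3 := norm_coeff_le (f - p) m
            rw [h2, norm_neg] at h3
            exact h3.trans happ.le
          have := pow_le_pow_left₀ (norm_nonneg _) h1 2
          linarith
        · have hset : {k | r m k} = {m : ℤ | ¬ ∃ g ∈ A, coeff g m ≠ 0} := by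
            ext k
            constructor
            · intro hk hcon
              exact hm (hNZr k m (r.symm hk) hcon)
            · intro hk
              refine (hr m k).1 fun g hg => ?_
              have h1 : coeff g m = 0 := by
                by_contra hne
                exact hm ⟨g, hg, hne⟩
              have h2 : coeff g k = 0 := by
                by_contra hne
                exact hk ⟨g, hg, hne⟩
              rw [h1, h2]
          have hinf : ¬ {k | r m k}.Finite := by rw [hset]; exact hZ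
          have hord : Set.OrdConnected {k | r m k} := by
            rcases hcl m with ho | h2
            · exact ho
            · exfalso
              obtain ⟨k, hk, hlt⟩ := exists_far _ hinf (2 * |m| + 1 + (c : ℤ) ^ 2 +
                2 * (1 + |m|) * (c + 1))
              have h3 := h2 k hk
              have h4 : (|k| : ℝ) ≤ |(m : ℝ)| + |(k : ℝ) - m| := by
                have := abs_sub_abs_le_abs_sub (k : ℝ) m
                linarith
              have h5 : (c : ℝ) * Real.sqrt (1 + |(m : ℝ)|) ≤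
                  (1 + |(m : ℝ)|) / 2 + (c : ℝ) ^ 2 / 2 := by
                nlinarith [sq_nonneg (Real.sqrt (1 + |(m : ℝ)|) - c),
                  Real.sq_sqrt (show (0 : ℝ) ≤ 1 + |(m : ℝ)| by positivity)]
              have h6 : (2 * |(m : ℝ)| + 1 + (c : ℝ) ^ 2 + 2 * (1 + |(m : ℝ)|) * (c + 1)) <
                  |(k : ℝ)| := by exact_mod_cast hlt
              have h7 : (0 : ℝ) ≤ 2 * (1 + |(m : ℝ)|) * (c + 1) := by positivity
              have h8 : (0 : ℝ) ≤ |(m : ℝ)| := abs_nonneg _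
              have h9 : (0 : ℝ) ≤ (c : ℝ) ^ 2 := by positivity
              linarith
          obtain ⟨k, hk, hlt⟩ := exists_far _ hinf ((N₂ : ℤ) + 1)
          have : η m = 0 := by rw [hI m k hord hk]; exact hη0 k hlt
          rw [this, norm_zero]
          have : (0 : ℝ) ^ 2 = 0 := by norm_num
          rw [this]; linarith
    -- sum
    have hN02 : N0 ≤ N₂ := hN01.trans hN12
    have hsum : ∀ u : Finset ℤ, ∑ m ∈ u, ‖coeff (p - h0) m‖ ^ 2 ≤ (ε / 2) ^ 2 := by
      intro u
      refine (Finset.sum_le_sum fun m _ => hpt m).trans ?_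
      rw [Finset.sum_add_distrib, ← Finset.mul_sum, Finset.sum_add_distrib]
      have b1 := sum_bd u D M' N₁ N0 hN01 (δ ^ 2) (‖f‖ ^ 2) (by positivity) (by positivity)
      have b2 := sum_bd u D M' N₂ N0 hN02 (δ ^ 2) (‖f‖ ^ 2) (by positivity) (by positivity)
      have b3 : ∑ m ∈ u, (if m ∈ Zf then ε1 ^ 2 else 0) ≤ Zf.card * ε1 ^ 2 := by
        rw [← Finset.sum_filter, Finset.sum_const, nsmul_eq_mul]
        refine mul_le_mul_of_nonneg_right ?_ (by positivity)
        have : (u.filter (fun m => m ∈ Zf)).card ≤ Zf.card :=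
          Finset.card_le_card fun m hm => (Finset.mem_filter.1 hm).2
        exact_mod_cast this
      have b4 : 72 * (c : ℝ) ^ 2 * D * (2 * (δ ^ 2 * (2 * D + 1) +
          ‖f‖ ^ 2 * (2 * M' + 1) / (N0 + 1))) ≤ ε ^ 2 / 16 + ε ^ 2 / 16 := by
        have e0 : 72 * (c : ℝ) ^ 2 * D * (2 * (δ ^ 2 * (2 * D + 1) +
          ‖f‖ ^ 2 * (2 * M' + 1) / (N0 + 1))) = E1 * δ ^ 2 + E2 / (N0 + 1) := by
          rw [hE1, hE2]; ring
        rw [e0]
        refine add_le_add ?_ ?_
        · rw [hδ, div_pow, ← mul_div_assoc, div_le_div_iff₀ (by positivity) (by norm_num)]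
          have : E1 ≤ (E1 + 1) ^ 2 := by nlinarith
          nlinarith [mul_le_mul_of_nonneg_right this (sq_nonneg ε)]
        · rw [div_le_iff₀ (by positivity)]
          rw [div_le_iff₀ (by positivity)] at hN0
          nlinarith [sq_nonneg ε]
      have b5 : (Zf.card : ℝ) * ε1 ^ 2 ≤ ε ^ 2 / 16 := by
        rw [hε1, div_pow, ← mul_div_assoc, div_le_div_iff₀ (by positivity) (by norm_num)]
        have h0 : (0 : ℝ) ≤ (Zf.card : ℝ) := by positivity
        have : (Zf.card : ℝ) ≤ ((Zf.card : ℝ) + 1) ^ 2 := by nlinarith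
        nlinarith [mul_le_mul_of_nonneg_right this (sq_nonneg ε)]
      have b6 := mul_le_mul_of_nonneg_left (add_le_add b1 b2)
        (show (0 : ℝ) ≤ 72 * (c : ℝ) ^ 2 * D by positivity)
      have b7 : 0 < ε ^ 2 := by positivity
      nlinarith
    have hS : Summable (fun n => ‖coeff (p - h0) n‖ ^ 2) :=
      summable_of_sum_le (fun _ => by positivity) hsum
    have hnorm : ‖p - h0‖ ≤ ε / 2 :=
      norm_le_of_coeff _ hS _ (by positivity) (hS.tsum_le_of_sum_le hsum)
    refine ⟨h0, hh0B, ?_⟩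
    rw [dist_eq_norm]
    have h1 : f - h0 = (f - p) + (p - h0) := by abel
    rw [h1]
    have h2 : ε1 ≤ ε / 4 := by
      rw [hε1]
      refine div_le_div_of_nonneg_left hε.le (by norm_num) ?_
      have h0 : (0 : ℝ) ≤ (Zf.card : ℝ) := by positivity
      linarith
    have := norm_add_le (f - p) (p - h0)
    linarith
  rwa [hBc.closure_eq] at hclo

end Pool.Agent.W229.SYN.FIN
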