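import Pool.Agent.W810.SYN.Stm

set_option autoImplicit false

namespace Pool.Agent.W229.SYN.APX

open MeasureTheory AddCircle Filter Topology Pool.Agent.Results.MP_535799_an.NonSidon
  Pool.Agent.W810.SYN

lemma norm_coeff_le (f : L1) (n : ℤ) : ‖coeff f n‖ ≤ ‖f‖ := by
  unfold coeff fourierCoeff
  rw [L1.norm_eq_integral_norm]
  refine (norm_integral_le_integral_norm _).trans (le_of_eq ?_)
  refine integral_congr_ae (Filter.Eventually.of_forall fun x => ?_)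
  have h1 : ‖(fourier (-n) x : ℂ)‖ = 1 := by
    rw [fourier_apply]
    exact Circle.norm_coe _
  show ‖(fourier (-n) x : ℂ) • f x‖ = ‖f x‖
  rw [norm_smul, h1, one_mul]

lemma lam_zero (N : ℕ) (n : ℤ) (h : (N : ℤ) + 1 ≤ |n|) : lam N n = 0 := by
  unfold lam
  rw [max_eq_left (by omega)]
  simp

lemma Gc_zero (N : ℕ) (n : ℤ) (h : n ∉ Finset.Icc (-(N : ℤ) - 1) N) : Gc N n = 0 := by
  rw [Finset.mem_Icc] at h
  unfold Gc
  rw [lam_zero, lam_zero, sub_zero]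
  · rw [le_abs]; by_contra hcon; push Not at hcon; apply h; constructor <;> linarith
  · rw [le_abs]; by_contra hcon; push Not at hcon; apply h; constructor <;> linarith

lemma Gc_norm (N : ℕ) (n : ℤ) : ‖Gc N n‖ ≤ if |n| ≤ (N : ℤ) + 1 then 1 / ((N : ℝ) + 1) else 0 := by
  split_ifs with h
  · unfold Gc lam
    rw [← sub_div, norm_div]
    have h1 : ‖((N : ℂ) + 1)‖ = (N : ℝ) + 1 := by
      exact_mod_cast Complex.norm_natCast (N + 1)
    rw [h1]
    refine div_le_div_of_nonneg_right ?_ (by positivity)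
    rw [← Int.cast_sub, Complex.norm_intCast]
    have h2 : |max 0 ((N : ℤ) + 1 - |n|) - max 0 ((N : ℤ) + 1 - |n + 1|)| ≤ 1 := by
      rcases abs_cases n with ⟨h3, h4⟩ | ⟨h3, h4⟩ <;> rcases abs_cases (n + 1) with ⟨h5, h6⟩ | ⟨h5, h6⟩ <;>
      rw [h3, h5, abs_le] <;>
      constructor <;> omega
    exact_mod_cast h2
  · rw [Gc_zero, norm_zero]
    rw [Finset.mem_Icc]
    intro hh
    apply h
    rw [abs_le]
    constructor <;> linarith [hh.1, hh.2]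

/-- partial sums -/
noncomputable def U (a : ℤ → ℂ) (N : ℕ) (n : ℤ) : ℂ :=
  ∑ m ∈ Finset.Icc (-(N : ℤ) - 1) N, if m < n then Gc N m * a m else 0

lemma U_step (a : ℤ → ℂ) (N : ℕ) (n : ℤ) : U a N (n + 1) - U a N n = Gc N n * a n := by
  unfold U
  rw [← Finset.sum_sub_distrib]
  have h1 : ∀ m ∈ Finset.Icc (-(N : ℤ) - 1) N, ((if m < n + 1 then Gc N m * a m else 0) -
      (if m < n then Gc N m * a m else 0)) = if n = m then Gc N m * a m else 0 := by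
    intro m _
    by_cases h2 : m < n
    · rw [if_pos (by omega), if_pos h2, if_neg (by omega), sub_self]
    · by_cases h3 : n = m
      · rw [if_pos (by omega), if_neg h2, if_pos h3, sub_zero]
      · rw [if_neg (by omega), if_neg h2, if_neg h3, sub_zero]
  rw [Finset.sum_congr rfl h1, Finset.sum_ite_eq]
  split_ifs with h
  · rfl
  · rw [Gc_zero N n h, zero_mul]

lemma U_low (a : ℤ → ℂ) (N : ℕ) (n : ℤ) (h : n ≤ -(N : ℤ) - 1) : U a N n = 0 := by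
  unfold U
  refine Finset.sum_eq_zero fun m hm => ?_
  rw [Finset.mem_Icc] at hm
  rw [if_neg (by omega)]

lemma U_high (f : L1) (N : ℕ) (n : ℤ) (h : (N : ℤ) + 1 ≤ n) : U (coeff f) N n = cN f N := by
  unfold U cN
  refine Finset.sum_congr rfl fun m hm => ?_
  rw [Finset.mem_Icc] at hm
  rw [if_pos (by omega)]

lemma Gc_norm' (N : ℕ) (n : ℤ) : ‖Gc N n‖ ≤ 1 / ((N : ℝ) + 1) := by
  refine (Gc_norm N n).trans ?_
  split_ifs
  · exact le_rfl
  · positivity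

lemma U_norm (f : L1) (N : ℕ) (n : ℤ) : ‖U (coeff f) N n‖ ≤ BN f N / ((N : ℝ) + 1) := by
  unfold U BN
  rw [Finset.sum_div]
  refine norm_sum_le_of_le _ fun m _ => ?_
  split_ifs
  · rw [norm_mul, div_eq_mul_one_div, mul_comm]
    exact mul_le_mul_of_nonneg_left (Gc_norm' N m) (norm_nonneg _)
  · rw [norm_zero]; positivity

lemma c_norm (f : L1) (N : ℕ) : ‖cN f N‖ ≤ BN f N / ((N : ℝ) + 1) := by
  rw [← U_high f N (N + 1) le_rfl]
  exact U_norm f N _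

lemma tele (F g : ℤ → ℂ) (h : ∀ n, F (n + 1) - F n = g n) (n n' : ℤ) (hle : n ≤ n') :
    F n' - F n = ∑ m ∈ Finset.Ico n n', g m := by
  obtain ⟨k, rfl⟩ := Int.le.dest hle
  induction k with
  | zero => simp
  | succ k ih =>
    have h1 : Finset.Ico n (n + ((k + 1 : ℕ) : ℤ)) = insert (n + (k : ℤ)) (Finset.Ico n (n + (k : ℤ))) := by
      ext x
      simp only [Finset.mem_Ico, Finset.mem_insert]
      push_cast
      omega
    rw [h1, Finset.sum_insert (by simp), ← ih (by omega), ← h (n + k)]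
    push_cast
    rw [← add_assoc]
    ring

lemma four_norm (x : Circ) (n : ℤ) : ‖(fourier n x : ℂ)‖ = 1 := by
  rw [fourier_apply]
  exact Circle.norm_coe _

lemma poly_apply (S : Finset ℤ) (b : ℤ → ℂ) (x : Circ) :
    poly S b x = ∑ n ∈ S, b n * (fourier n x : ℂ) := by
  unfold poly
  simp [ContinuousMap.coe_sum, Finset.sum_apply]

lemma four_succ (x : Circ) (n : ℤ) : (fourier (n + 1) x : ℂ) = fourier n x * fourier 1 x := by
  rw [← fourier_add]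

lemma four_sub (x : Circ) (k : ℕ) : ‖(fourier (k : ℤ) x : ℂ) - 1‖ ≤ k * sd x := by
  induction k with
  | zero => simp
  | succ k ih =>
    push_cast
    rw [four_succ]
    have h1 : (fourier (k : ℤ) x : ℂ) * fourier 1 x - 1 =
      ((fourier (k : ℤ) x : ℂ) - 1) - (fourier (k : ℤ) x : ℂ) * (1 - fourier 1 x) := by ring
    rw [h1]
    refine (norm_sub_le _ _).trans ?_
    rw [norm_mul, four_norm, one_mul]
    have : ‖(1 : ℂ) - (fourier 1 x : ℂ)‖ = sd x := rfl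
    rw [this]
    linarith

lemma four_sub' (x : Circ) (n : ℤ) : ‖(fourier n x : ℂ) - 1‖ ≤ |(n : ℝ)| * sd x := by
  rcases Int.eq_nat_or_neg n with ⟨k, rfl | rfl⟩
  · refine (four_sub x k).trans (le_of_eq ?_)
    simp
  · have h1 : (fourier (-(k : ℤ)) x : ℂ) * fourier (k : ℤ) x = 1 := by
      rw [← fourier_add]; simp
    have h2 : (fourier (-(k : ℤ)) x : ℂ) - 1 = -(fourier (-(k : ℤ)) x * ((fourier (k : ℤ) x : ℂ) - 1)) := by
      rw [mul_sub, h1]; ring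
    rw [h2, norm_neg, norm_mul, four_norm, one_mul]
    refine (four_sub x k).trans (le_of_eq ?_)
    simp

lemma sd_nonneg (x : Circ) : 0 ≤ sd x := norm_nonneg _

lemma sd_cont : Continuous sd := by
  unfold sd
  fun_prop

/-- near zero `uN` is close to `cN` -/
lemma u_near (f : L1) (N : ℕ) (x : Circ) : ‖uN f N x‖ ≤ ‖cN f N‖ + BN f N * sd x := by
  have h1 : uN f N x - cN f N = ∑ n ∈ Finset.Icc (-(N : ℤ) - 1) N,
      (Gc N n * coeff f n) * ((fourier n x : ℂ) - 1) := by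
    unfold uN cN
    rw [poly_apply, ← Finset.sum_sub_distrib]
    exact Finset.sum_congr rfl fun n _ => by ring
  have h2 : ‖uN f N x - cN f N‖ ≤ BN f N * sd x := by
    rw [h1]
    unfold BN
    rw [Finset.sum_mul]
    refine norm_sum_le_of_le _ fun m hm => ?_
    rw [norm_mul, norm_mul]
    have e1 := Gc_norm' N m
    have e2 := four_sub' x m
    have e3 : |(m : ℝ)| ≤ (N : ℝ) + 1 := by
      rw [Finset.mem_Icc] at hm
      have : |m| ≤ (N : ℤ) + 1 := by rw [abs_le]; constructor <;> linarith [hm.1, hm.2]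
      exact_mod_cast this
    have e4 : 0 ≤ sd x := sd_nonneg x
    have e5 : (0 : ℝ) < (N : ℝ) + 1 := by positivity
    have e6 : ‖(fourier m x : ℂ) - 1‖ ≤ ((N : ℝ) + 1) * sd x :=
      e2.trans (mul_le_mul_of_nonneg_right e3 e4)
    calc ‖Gc N m‖ * ‖coeff f m‖ * ‖(fourier m x : ℂ) - 1‖
        ≤ (1 / ((N : ℝ) + 1)) * ‖coeff f m‖ * (((N : ℝ) + 1) * sd x) := by
          refine mul_le_mul (mul_le_mul_of_nonneg_right e1 (norm_nonneg _)) e6 (norm_nonneg _)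
            (by positivity)
      _ = ‖coeff f m‖ * sd x := by field_simp
  have h3 : uN f N x = cN f N + (uN f N x - cN f N) := by ring
  rw [h3]
  refine (norm_add_le _ _).trans ?_
  linarith

/-- Abel summation -/
lemma abel (V g : ℤ → ℂ) (h : ∀ n, V (n + 1) - V n = g n) (A B : ℤ) (hAB : A ≤ B)
    (hA : V A = 0) (hB : V B = 0) (x : Circ) :
    (1 - (fourier 1 x : ℂ)) * ∑ n ∈ Finset.Ico A B, V n * (fourier n x : ℂ) =
      (fourier 1 x : ℂ) * ∑ n ∈ Finset.Ico A B, g n * (fourier n x : ℂ) := by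
  have h1 := tele (fun n => V n * (fourier n x : ℂ))
    (fun n => V (n + 1) * (fourier (n + 1) x : ℂ) - V n * (fourier n x : ℂ)) (fun n => rfl) A B hAB
  simp only [hA, hB, zero_mul, sub_zero] at h1
  have h2 : (fourier 1 x : ℂ) * ∑ n ∈ Finset.Ico A B, g n * (fourier n x : ℂ) -
      (1 - (fourier 1 x : ℂ)) * ∑ n ∈ Finset.Ico A B, V n * (fourier n x : ℂ) = 0 := by
    rw [h1, Finset.mul_sum, Finset.mul_sum, ← Finset.sum_sub_distrib]
    refine Finset.sum_congr rfl fun n _ => ?_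
    rw [four_succ, ← h n]
    ring
  linear_combination -h2

lemma io (u : C(Circ, ℂ)) (δ : ℝ) (hδ : 0 < δ) (s : Set Circ) (hs : ∀ x ∈ s, δ ≤ sd x)
    (hm : MeasurableSet s) : IntegrableOn (fun x => ‖u x‖ / sd x) s mu := by
  have hmeas : Measurable (fun x => ‖u x‖ / sd x) :=
    (u.continuous.norm.measurable).div sd_cont.measurable
  refine Measure.integrableOn_of_bounded (M := ‖u‖ / δ) (measure_ne_top _ _)
    hmeas.aestronglyMeasurable ?_
  rw [ae_restrict_iff' hm]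
  refine Filter.Eventually.of_forall fun x hx => ?_
  have h1 := hs x hx
  rw [Real.norm_of_nonneg (div_nonneg (norm_nonneg _) (sd_nonneg x))]
  exact div_le_div₀ (norm_nonneg _) (u.norm_coe_le_norm x) hδ h1

lemma V_bound (hMEAS : S_MEAS) (hLC : S_LC) (f : L1) (N₁ N₂ : ℕ) (hN : N₁ ≤ N₂) (t₁ t₂ : ℂ)
    (ht1 : ‖t₁‖ ≤ 3) (ht2 : ‖t₂‖ ≤ 3) (hc : t₁ * cN f N₁ + t₂ * cN f N₂ = 0) :
    ‖toL (poly (Finset.Icc (-(N₂ : ℤ) - 1) (N₂ + 1))
      (fun n => t₁ * U (coeff f) N₁ n + t₂ * U (coeff f) N₂ n))‖ ≤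
    9 * (BN f N₁ / ((N₁ : ℝ) + 1) + BN f N₂ / ((N₂ : ℝ) + 1)) +
    3 * (∫ x in {x | 1 / ((N₂ : ℝ) + 1) ≤ sd x}, ‖uN f N₂ x‖ / sd x ∂mu) +
    3 * (∫ x in {x | 1 / ((N₁ : ℝ) + 1) ≤ sd x}, ‖uN f N₁ x‖ / sd x ∂mu) +
    3 * (BN f N₁ / ((N₁ : ℝ) + 1)) +
    3 * (‖cN f N₁‖ * (1 + ∑ N ∈ Finset.Ico N₁ N₂, 1 / ((N : ℝ) + 1))) := by
  set V : ℤ → ℂ := fun n => t₁ * U (coeff f) N₁ n + t₂ * U (coeff f) N₂ n with hV
  set P := poly (Finset.Icc (-(N₂ : ℤ) - 1) (N₂ + 1)) V with hP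
  have hN' : (N₁ : ℤ) ≤ N₂ := by exact_mod_cast hN
  have hp1 : (0 : ℝ) < (N₁ : ℝ) + 1 := by positivity
  have hp2 : (0 : ℝ) < (N₂ : ℝ) + 1 := by positivity
  have hVA : V (-(N₂ : ℤ) - 1) = 0 := by
    simp only [hV]
    rw [U_low _ _ _ (by omega), U_low _ _ _ (by omega)]
    ring
  have hVB : V ((N₂ : ℤ) + 2) = 0 := by
    simp only [hV]
    rw [U_high _ _ _ (by omega), U_high _ _ _ (by omega)]
    exact hc
  have hIco : Finset.Icc (-(N₂ : ℤ) - 1) (N₂ + 1) = Finset.Ico (-(N₂ : ℤ) - 1) ((N₂ : ℤ) + 2) := by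
    ext x
    simp only [Finset.mem_Icc, Finset.mem_Ico]
    omega
  have hsumu : ∀ (N : ℕ), N ≤ N₂ → ∀ x : Circ,
      ∑ n ∈ Finset.Ico (-(N₂ : ℤ) - 1) ((N₂ : ℤ) + 2), Gc N n * coeff f n * (fourier n x : ℂ) =
      uN f N x := by
    intro N hNN x
    unfold uN
    rw [poly_apply]
    symm
    refine Finset.sum_subset ?_ ?_
    · intro n hn
      rw [Finset.mem_Icc] at hn
      rw [Finset.mem_Ico]
      omega
    · intro n _ hn
      rw [Gc_zero N n hn, zero_mul, zero_mul]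
  have hkey : ∀ x : Circ, sd x * ‖P x‖ = ‖t₁ * uN f N₁ x + t₂ * uN f N₂ x‖ := by
    intro x
    have h1 := abel V (fun n => t₁ * (Gc N₁ n * coeff f n) + t₂ * (Gc N₂ n * coeff f n))
      (fun n => by
        simp only [hV]
        rw [← U_step, ← U_step]; ring) (-(N₂ : ℤ) - 1) ((N₂ : ℤ) + 2) (by omega) hVA hVB x
    have h2 : ∑ n ∈ Finset.Ico (-(N₂ : ℤ) - 1) ((N₂ : ℤ) + 2),
        (t₁ * (Gc N₁ n * coeff f n) + t₂ * (Gc N₂ n * coeff f n)) * (fourier n x : ℂ) =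
        t₁ * uN f N₁ x + t₂ * uN f N₂ x := by
      rw [← hsumu N₁ hN x, ← hsumu N₂ le_rfl x, Finset.mul_sum, Finset.mul_sum,
        ← Finset.sum_add_distrib]
      exact Finset.sum_congr rfl fun n _ => by ring
    rw [h2, ← hIco, ← poly_apply] at h1
    have h3 := congrArg norm h1
    rw [norm_mul, norm_mul, four_norm, one_mul] at h3
    exact h3
  have hb : ∀ x : Circ, ‖P x‖ ≤ 9 * (BN f N₁ / ((N₁ : ℝ) + 1) + BN f N₂ / ((N₂ : ℝ) + 1)) *
      ((N₂ : ℝ) + 1) := by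
    intro x
    rw [hP, poly_apply]
    have hB : ∀ n, ‖V n‖ ≤ 3 * (BN f N₁ / ((N₁ : ℝ) + 1) + BN f N₂ / ((N₂ : ℝ) + 1)) := by
      intro n
      simp only [hV]
      refine (norm_add_le _ _).trans ?_
      rw [norm_mul, norm_mul, mul_add]
      exact add_le_add (mul_le_mul ht1 (U_norm f N₁ n) (norm_nonneg _) (by norm_num))
        (mul_le_mul ht2 (U_norm f N₂ n) (norm_nonneg _) (by norm_num))
    have hB0 : 0 ≤ 3 * (BN f N₁ / ((N₁ : ℝ) + 1) + BN f N₂ / ((N₂ : ℝ) + 1)) :=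
      (norm_nonneg _).trans (hB 0)
    refine (norm_sum_le_of_le (n := fun _ => 3 * (BN f N₁ / ((N₁ : ℝ) + 1) +
      BN f N₂ / ((N₂ : ℝ) + 1))) _ fun n _ => ?_).trans ?_
    · rw [norm_mul, four_norm, mul_one]
      exact hB n
    · rw [Finset.sum_const, Int.card_Icc, nsmul_eq_mul]
      have h1 : ((N₂ : ℤ) + 1 + 1 - (-(N₂ : ℤ) - 1)).toNat = 2 * N₂ + 3 := by omega
      rw [h1]
      push_cast
      have h2 : (2 * (N₂ : ℝ) + 3) ≤ 3 * ((N₂ : ℝ) + 1) := by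
        have : (0 : ℝ) ≤ N₂ := by positivity
        linarith
      nlinarith [mul_le_mul_of_nonneg_right h2 hB0]
  rw [norm_toL]
  have hPi : Integrable (fun x => ‖P x‖) mu := integrable_of_cont _ P.continuous.norm
  have hR0 : MeasurableSet {x : Circ | sd x < 1 / ((N₂ : ℝ) + 1)} :=
    measurableSet_lt sd_cont.measurable measurable_const
  have hQ2 : MeasurableSet {x : Circ | 1 / ((N₂ : ℝ) + 1) ≤ sd x} :=
    measurableSet_le measurable_const sd_cont.measurable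
  have hR2 : MeasurableSet {x : Circ | 1 / ((N₁ : ℝ) + 1) ≤ sd x} :=
    measurableSet_le measurable_const sd_cont.measurable
  have hR1 : MeasurableSet {x : Circ | 1 / ((N₂ : ℝ) + 1) ≤ sd x ∧ sd x < 1 / ((N₁ : ℝ) + 1)} :=
    hQ2.inter (measurableSet_lt sd_cont.measurable measurable_const)
  have hcompl : {x : Circ | sd x < 1 / ((N₂ : ℝ) + 1)}ᶜ = {x : Circ | 1 / ((N₂ : ℝ) + 1) ≤ sd x} := by
    ext x
    simp
  rw [← integral_add_compl hR0 hPi, hcompl]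
  have i1 : ∫ x in {x : Circ | sd x < 1 / ((N₂ : ℝ) + 1)}, ‖P x‖ ∂mu ≤
      9 * (BN f N₁ / ((N₁ : ℝ) + 1) + BN f N₂ / ((N₂ : ℝ) + 1)) := by
    have h1 : ∫ x in {x : Circ | sd x < 1 / ((N₂ : ℝ) + 1)}, ‖P x‖ ∂mu ≤
        ∫ x in {x : Circ | sd x < 1 / ((N₂ : ℝ) + 1)},
          9 * (BN f N₁ / ((N₁ : ℝ) + 1) + BN f N₂ / ((N₂ : ℝ) + 1)) * ((N₂ : ℝ) + 1) ∂mu :=
      setIntegral_mono_on hPi.integrableOn (integrable_const _).integrableOn hR0 fun x _ => hb x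
    refine h1.trans ?_
    rw [setIntegral_const, smul_eq_mul]
    have h2 := hMEAS (1 / ((N₂ : ℝ) + 1)) (by positivity)
    have hB0 : 0 ≤ 9 * (BN f N₁ / ((N₁ : ℝ) + 1) + BN f N₂ / ((N₂ : ℝ) + 1)) * ((N₂ : ℝ) + 1) :=
      (norm_nonneg _).trans (hb 0)
    refine (mul_le_mul_of_nonneg_right h2 hB0).trans (le_of_eq ?_)
    field_simp
  have io1 : IntegrableOn (fun x => ‖uN f N₁ x‖ / sd x) {x : Circ | 1 / ((N₂ : ℝ) + 1) ≤ sd x} mu :=
    io _ (1 / ((N₂ : ℝ) + 1)) (by positivity) _ (fun x hx => hx) hQ2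
  have io2 : IntegrableOn (fun x => ‖uN f N₂ x‖ / sd x) {x : Circ | 1 / ((N₂ : ℝ) + 1) ≤ sd x} mu :=
    io _ (1 / ((N₂ : ℝ) + 1)) (by positivity) _ (fun x hx => hx) hQ2
  have i2 : ∫ x in {x : Circ | 1 / ((N₂ : ℝ) + 1) ≤ sd x}, ‖P x‖ ∂mu ≤
      3 * (∫ x in {x : Circ | 1 / ((N₂ : ℝ) + 1) ≤ sd x}, ‖uN f N₁ x‖ / sd x ∂mu) +
      3 * (∫ x in {x : Circ | 1 / ((N₂ : ℝ) + 1) ≤ sd x}, ‖uN f N₂ x‖ / sd x ∂mu) := by
    rw [← integral_const_mul, ← integral_const_mul, ← integral_add (io1.const_mul 3)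
      (io2.const_mul 3)]
    refine setIntegral_mono_on hPi.integrableOn ((io1.const_mul 3).add (io2.const_mul 3)) hQ2
      fun x hx => ?_
    have hx' : 0 < sd x := lt_of_lt_of_le (by positivity) hx
    have h1 : ‖P x‖ = ‖t₁ * uN f N₁ x + t₂ * uN f N₂ x‖ / sd x := by
      rw [← hkey x, mul_div_cancel_left₀ _ hx'.ne']
    rw [h1, div_le_iff₀ hx']
    have h2 : (3 * (‖uN f N₁ x‖ / sd x) + 3 * (‖uN f N₂ x‖ / sd x)) * sd x =
        3 * ‖uN f N₁ x‖ + 3 * ‖uN f N₂ x‖ := by field_simp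
    rw [h2]
    refine (norm_add_le _ _).trans ?_
    rw [norm_mul, norm_mul]
    exact add_le_add (mul_le_mul_of_nonneg_right ht1 (norm_nonneg _))
      (mul_le_mul_of_nonneg_right ht2 (norm_nonneg _))
  have h12 : 1 / ((N₂ : ℝ) + 1) ≤ 1 / ((N₁ : ℝ) + 1) := by
    refine one_div_le_one_div_of_le hp1 ?_
    have : (N₁ : ℝ) ≤ N₂ := by exact_mod_cast hN
    linarith
  have hun : {x : Circ | 1 / ((N₂ : ℝ) + 1) ≤ sd x} =
      {x : Circ | 1 / ((N₂ : ℝ) + 1) ≤ sd x ∧ sd x < 1 / ((N₁ : ℝ) + 1)} ∪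
      {x : Circ | 1 / ((N₁ : ℝ) + 1) ≤ sd x} := by
    ext x
    simp only [Set.mem_union, Set.mem_ofPred_eq]
    constructor
    · intro h
      rcases lt_or_ge (sd x) (1 / ((N₁ : ℝ) + 1)) with h' | h'
      · exact Or.inl ⟨h, h'⟩
      · exact Or.inr h'
    · rintro (h | h)
      · exact h.1
      · exact h12.trans h
  have hdis : Disjoint {x : Circ | 1 / ((N₂ : ℝ) + 1) ≤ sd x ∧ sd x < 1 / ((N₁ : ℝ) + 1)}
      {x : Circ | 1 / ((N₁ : ℝ) + 1) ≤ sd x} := by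
    rw [Set.disjoint_left]
    intro x h1 h2
    exact absurd h1.2 (not_lt.2 h2)
  have ioR1 : IntegrableOn (fun x => ‖uN f N₁ x‖ / sd x)
      {x : Circ | 1 / ((N₂ : ℝ) + 1) ≤ sd x ∧ sd x < 1 / ((N₁ : ℝ) + 1)} mu :=
    io1.mono_set (by rw [hun]; exact Set.subset_union_left)
  have ioR2 : IntegrableOn (fun x => ‖uN f N₁ x‖ / sd x) {x : Circ | 1 / ((N₁ : ℝ) + 1) ≤ sd x} mu :=
    io1.mono_set (by rw [hun]; exact Set.subset_union_right)
  have i3 : ∫ x in {x : Circ | 1 / ((N₂ : ℝ) + 1) ≤ sd x}, ‖uN f N₁ x‖ / sd x ∂mu =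
      (∫ x in {x : Circ | 1 / ((N₂ : ℝ) + 1) ≤ sd x ∧ sd x < 1 / ((N₁ : ℝ) + 1)},
        ‖uN f N₁ x‖ / sd x ∂mu) +
      ∫ x in {x : Circ | 1 / ((N₁ : ℝ) + 1) ≤ sd x}, ‖uN f N₁ x‖ / sd x ∂mu := by
    rw [hun]
    exact setIntegral_union hdis hR2 ioR1 ioR2
  have ioc : IntegrableOn (fun x => ‖cN f N₁‖ * (1 / sd x))
      {x : Circ | 1 / ((N₂ : ℝ) + 1) ≤ sd x ∧ sd x < 1 / ((N₁ : ℝ) + 1)} mu := by
    have h1 := io 1 (1 / ((N₂ : ℝ) + 1)) (by positivity)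
      {x : Circ | 1 / ((N₂ : ℝ) + 1) ≤ sd x ∧ sd x < 1 / ((N₁ : ℝ) + 1)} (fun x hx => hx.1) hR1
    have h2 : (fun x : Circ => ‖cN f N₁‖ * (1 / sd x)) =
        fun x : Circ => ‖cN f N₁‖ * (‖(1 : C(Circ, ℂ)) x‖ / sd x) := by
      ext x; simp
    rw [h2]
    exact h1.const_mul _
  have i4 : ∫ x in {x : Circ | 1 / ((N₂ : ℝ) + 1) ≤ sd x ∧ sd x < 1 / ((N₁ : ℝ) + 1)},
        ‖uN f N₁ x‖ / sd x ∂mu ≤
      ‖cN f N₁‖ * (1 + ∑ N ∈ Finset.Ico N₁ N₂, 1 / ((N : ℝ) + 1)) + BN f N₁ / ((N₁ : ℝ) + 1) := by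
    have hBN : 0 ≤ BN f N₁ := Finset.sum_nonneg fun n _ => norm_nonneg _
    have h1 : ∫ x in {x : Circ | 1 / ((N₂ : ℝ) + 1) ≤ sd x ∧ sd x < 1 / ((N₁ : ℝ) + 1)},
        ‖uN f N₁ x‖ / sd x ∂mu ≤
        ∫ x in {x : Circ | 1 / ((N₂ : ℝ) + 1) ≤ sd x ∧ sd x < 1 / ((N₁ : ℝ) + 1)},
        (‖cN f N₁‖ * (1 / sd x) + BN f N₁) ∂mu := by
      refine setIntegral_mono_on ioR1 (ioc.add (integrable_const _).integrableOn) hR1 fun x hx => ?_
      have hx' : 0 < sd x := lt_of_lt_of_le (by positivity) hx.1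
      rw [div_le_iff₀ hx']
      refine (u_near f N₁ x).trans (le_of_eq ?_)
      field_simp
    refine h1.trans ?_
    rw [integral_add ioc (integrable_const _).integrableOn, integral_const_mul, setIntegral_const,
      smul_eq_mul]
    refine add_le_add (mul_le_mul_of_nonneg_left (hLC N₁ N₂ hN) (norm_nonneg _)) ?_
    have h2 : mu.real {x : Circ | 1 / ((N₂ : ℝ) + 1) ≤ sd x ∧ sd x < 1 / ((N₁ : ℝ) + 1)} ≤
        1 / ((N₁ : ℝ) + 1) :=
      (measureReal_mono (fun x hx => hx.2)).trans (hMEAS (1 / ((N₁ : ℝ) + 1)) (by positivity))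
    refine (mul_le_mul_of_nonneg_right h2 hBN).trans (le_of_eq ?_)
    ring
  linarith

lemma choose_N (f : L1) (hHAR : S_HAR) (N₁ : ℕ) (κ : ℝ) (hκ : 0 ≤ κ)
    (htail : ∀ M, ∑ N ∈ Finset.Ico N₁ M, ‖cN f N‖ / ((N : ℝ) + 1) ≤ κ) :
    ∃ (N₂ : ℕ) (t₁ t₂ : ℂ), N₁ ≤ N₂ ∧ ‖t₁‖ ≤ 3 ∧ ‖t₂‖ ≤ 3 ∧ t₁ + t₂ = 1 ∧
      t₁ * cN f N₁ + t₂ * cN f N₂ = 0 ∧
      ‖cN f N₁‖ * ∑ N ∈ Finset.Ico N₁ N₂, 1 / ((N : ℝ) + 1) ≤ 2 * κ := by
  by_cases hc : cN f N₁ = 0
  · refine ⟨N₁, 1, 0, le_rfl, by simp, by simp, by ring, by rw [hc]; ring, ?_⟩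
    rw [hc]; simp; exact hκ
  · have hcp : 0 < ‖cN f N₁‖ := norm_pos_iff.2 hc
    have hex : ∃ N, N₁ ≤ N ∧ ‖cN f N‖ ≤ ‖cN f N₁‖ / 2 := by
      by_contra hcon
      push Not at hcon
      have h1 := (summable_nat_add_iff N₁).2 (hHAR f)
      have h2 : Summable (fun n : ℕ => (‖cN f N₁‖ / 2) * (1 / ((n + (N₁ + 1) : ℕ) : ℝ))) := by
        refine Summable.of_nonneg_of_le (fun n => by positivity) (fun n => ?_) h1
        have h3 := hcon (n + N₁) (by omega)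
        rw [mul_one_div]
        have h4 : ((n + (N₁ + 1) : ℕ) : ℝ) = ((n + N₁ : ℕ) : ℝ) + 1 := by push_cast; ring
        rw [h4]
        exact div_le_div_of_nonneg_right h3.le (by positivity)
      have h5 := (summable_mul_left_iff (show ‖cN f N₁‖ / 2 ≠ 0 by positivity)).1 h2
      have h6 := (summable_nat_add_iff (f := fun n : ℕ => 1 / (n : ℝ)) (N₁ + 1)).1 h5
      exact Real.not_summable_one_div_natCast h6
    classical
    set N₂ := Nat.find hex with hN2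
    obtain ⟨h1, h2⟩ := Nat.find_spec hex
    have hd1 : ‖cN f N₁‖ / 2 ≤ ‖cN f N₂ - cN f N₁‖ := by
      have := norm_sub_norm_le (cN f N₁) (cN f N₂)
      rw [norm_sub_rev] at this
      linarith
    have hd0 : 0 < ‖cN f N₂ - cN f N₁‖ := lt_of_lt_of_le (by positivity) hd1
    have hd : cN f N₂ - cN f N₁ ≠ 0 := norm_pos_iff.1 hd0
    refine ⟨N₂, cN f N₂ / (cN f N₂ - cN f N₁), -cN f N₁ / (cN f N₂ - cN f N₁), h1, ?_, ?_, ?_, ?_, ?_⟩
    · rw [norm_div, div_le_iff₀ hd0]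
      linarith
    · rw [norm_div, norm_neg, div_le_iff₀ hd0]
      linarith
    · rw [← add_div]
      exact (div_eq_one_iff_eq hd).2 (by ring)
    · field_simp
      ring
    · have h3 : ‖cN f N₁‖ * ∑ N ∈ Finset.Ico N₁ N₂, 1 / ((N : ℝ) + 1) ≤
          2 * ∑ N ∈ Finset.Ico N₁ N₂, ‖cN f N‖ / ((N : ℝ) + 1) := by
        rw [Finset.mul_sum, Finset.mul_sum]
        refine Finset.sum_le_sum fun N hN => ?_
        rw [Finset.mem_Ico] at hN
        have h4 := Nat.find_min hex hN.2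
        have h5 : ‖cN f N₁‖ / 2 < ‖cN f N‖ := by
          by_contra hcon
          exact h4 ⟨hN.1, not_lt.1 hcon⟩
        rw [mul_one_div, ← mul_div_assoc]
        exact div_le_div_of_nonneg_right (by linarith) (by positivity)
      refine h3.trans ?_
      linarith [htail N₂]

theorem main (hRL : S_RL) (hFEJ : S_FEJ) (hHAR : S_HAR) (hMEAS : S_MEAS) (hUN : S_UN)
    (hLC : S_LC) : S_APX := by
  intro f ε N₀ hε
  set κ : ℝ := ε / 50 with hκ
  have hκ0 : 0 < κ := by positivity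
  have e1 := (hFEJ.2 f).eventually_lt_const hκ0
  have e2 := (hRL f).2.eventually_lt_const hκ0
  have e3 := (hUN f).eventually_lt_const hκ0
  have hT := (hHAR f).tendsto_sum_tsum_nat
  have e4 := hT.eventually_const_lt
    (show (∑' N : ℕ, ‖cN f N‖ / ((N : ℝ) + 1)) - κ < ∑' N : ℕ, ‖cN f N‖ / ((N : ℝ) + 1) by linarith)
  obtain ⟨K, hK⟩ := eventually_atTop.1 (e1.and (e2.and (e3.and e4)))
  set N₁ := max K N₀ with hN1
  have htail : ∀ M, ∑ N ∈ Finset.Ico N₁ M, ‖cN f N‖ / ((N : ℝ) + 1) ≤ κ := by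
    intro M
    rcases le_total N₁ M with h | h
    · rw [Finset.sum_Ico_eq_sub _ h]
      have h1 := (hK N₁ (le_max_left _ _)).2.2.2
      have h2 := (hHAR f).sum_le_tsum (Finset.range M) (fun i _ => by positivity)
      linarith
    · rw [Finset.Ico_eq_empty_of_le h]
      simpa using hκ0.le
  obtain ⟨N₂, t₁, t₂, hN, ht1, ht2, ht, hc, hH⟩ := choose_N f hHAR N₁ κ hκ0.le htail
  have hN' : (N₁ : ℤ) ≤ N₂ := by exact_mod_cast hN
  refine ⟨N₁, N₂, fun n => t₁ * (lam N₁ n * coeff f n + U (coeff f) N₁ n) +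
    t₂ * (lam N₂ n * coeff f n + U (coeff f) N₂ n), fun m => t₁ * Gc N₁ m + t₂ * Gc N₂ m,
    le_max_right _ _, hN, ?_, ?_, ?_, ?_⟩
  · intro n hn
    show t₁ * (lam N₁ n * coeff f n + U (coeff f) N₁ n) +
      t₂ * (lam N₂ n * coeff f n + U (coeff f) N₂ n) = 0
    rw [lam_zero N₁ n (by omega), lam_zero N₂ n (by omega)]
    rcases lt_or_ge n 0 with h | h
    · rw [abs_of_neg h] at hn
      rw [U_low _ _ _ (by omega), U_low _ _ _ (by omega)]
      ring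
    · rw [abs_of_nonneg h] at hn
      rw [U_high _ _ _ (by omega), U_high _ _ _ (by omega)]
      linear_combination hc
  · intro m
    refine (norm_add_le _ _).trans ?_
    rw [norm_mul, norm_mul, mul_add]
    exact add_le_add (mul_le_mul ht1 (Gc_norm N₁ m) (norm_nonneg _) (by norm_num))
      (mul_le_mul ht2 (Gc_norm N₂ m) (norm_nonneg _) (by norm_num))
  · intro n n' hnn ha
    have h1 := tele (fun m => t₁ * (lam N₁ m * coeff f n + U (coeff f) N₁ m) +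
      t₂ * (lam N₂ m * coeff f n + U (coeff f) N₂ m))
      (fun m => (t₁ * Gc N₁ m + t₂ * Gc N₂ m) * (coeff f m - coeff f n)) (fun m => by
        have h2 := U_step (coeff f) N₁ m
        have h3 := U_step (coeff f) N₂ m
        have h4 : Gc N₁ m = lam N₁ m - lam N₁ (m + 1) := rfl
        have h5 : Gc N₂ m = lam N₂ m - lam N₂ (m + 1) := rfl
        linear_combination t₁ * h2 + t₂ * h3 + t₁ * coeff f n * h4 + t₂ * coeff f n * h5) n n' hnn
    rw [← h1]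
    simp only
    rw [← ha]
  · set p : L1 := toL (poly (Finset.Icc (-(N₂ : ℤ) - 1) (N₂ + 1))
      (fun n => t₁ * U (coeff f) N₁ n + t₂ * U (coeff f) N₂ n)) with hp
    have h1 : toL (poly (Finset.Icc (-(N₂ : ℤ) - 1) (N₂ + 1))
        (fun n => t₁ * (lam N₁ n * coeff f n + U (coeff f) N₁ n) +
        t₂ * (lam N₂ n * coeff f n + U (coeff f) N₂ n))) =
        t₁ • conv f (toL (fejer N₁)) + t₂ • conv f (toL (fejer N₂)) + p := by
      rw [← sub_eq_zero]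
      apply eq_zero_of_coeff
      intro n
      rw [coeff_sub, coeff_add, coeff_add, coeff_smul, coeff_smul, coeff_conv, coeff_conv,
        hFEJ.1, hFEJ.1, hp, coeff_toL_poly, coeff_toL_poly]
      split_ifs with h
      · ring
      · have h2 : (N₂ : ℤ) + 1 ≤ |n| := by
          rw [Finset.mem_Icc] at h
          rw [le_abs]; by_contra hcon; push Not at hcon; apply h; constructor <;> linarith
        rw [lam_zero N₁ n (by omega), lam_zero N₂ n h2]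
        ring
    rw [h1]
    have h2 : f - (t₁ • conv f (toL (fejer N₁)) + t₂ • conv f (toL (fejer N₂)) + p) =
        t₁ • (f - conv f (toL (fejer N₁))) + t₂ • (f - conv f (toL (fejer N₂))) - p := by
      have ht' : t₂ = 1 - t₁ := by linear_combination ht
      rw [ht']
      module
    rw [h2]
    have hVb := V_bound hMEAS hLC f N₁ N₂ hN t₁ t₂ ht1 ht2 hc
    rw [← hp] at hVb
    obtain ⟨a1, a2, a3, a4⟩ := hK N₁ (le_max_left _ _)
    obtain ⟨b1, b2, b3, b4⟩ := hK N₂ ((le_max_left _ _).trans hN)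
    have h3 : ‖t₁ • (f - conv f (toL (fejer N₁)))‖ ≤ 3 * κ := by
      rw [norm_smul]
      exact mul_le_mul ht1 a1.le (norm_nonneg _) (by norm_num)
    have h4 : ‖t₂ • (f - conv f (toL (fejer N₂)))‖ ≤ 3 * κ := by
      rw [norm_smul]
      exact mul_le_mul ht2 b1.le (norm_nonneg _) (by norm_num)
    have h5 := norm_sub_le (t₁ • (f - conv f (toL (fejer N₁))) +
      t₂ • (f - conv f (toL (fejer N₂)))) p
    have h6 := norm_add_le (t₁ • (f - conv f (toL (fejer N₁))))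
      (t₂ • (f - conv f (toL (fejer N₂))))
    have h7 := c_norm f N₁
    have h8 : ‖cN f N₁‖ * (1 + ∑ N ∈ Finset.Ico N₁ N₂, 1 / ((N : ℝ) + 1)) =
      ‖cN f N₁‖ + ‖cN f N₁‖ * ∑ N ∈ Finset.Ico N₁ N₂, 1 / ((N : ℝ) + 1) := by ring
    rw [h8] at hVb
    have h9 : ε = 50 * κ := by rw [hκ]; ring
    rw [h9]
    linarith

end Pool.Agent.W229.SYN.APX
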